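import Pool.Agent.V7H46.CY.P8
import Pool.Agent.W135.RT.Par6a

/-!
# Parametrisation of the curves with a point of order 12
-/

set_option autoImplicit false

namespace Pool.Agent.V7H46.CY

open Finset Pool.Agent.W262.RK Pool.Agent.W307.RT WeierstrassCurve.Affine
open Pool.Agent.V7H45.CY
open Pool.Agent.W605.RT (sh_eq sh_negY two_tors int_root int_sqrt root_sq)
open Pool.Agent.V7H54.C8 (dbl)

/-- the relation between a curve and its parameters -/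
def Rel12 (c ab : ℤ × ℤ) : Prop := IsCoprime ab.1 ab.2 ∧ Mc12 ab.1 ab.2 ≠ 0 ∧
  Nc12 ab.1 ab.2 ≠ 0 ∧ Mc12 ab.1 ab.2 ≠ Nc12 ab.1 ab.2 ∧ ∃ g : ℚ, g ≠ 0 ∧ 1 ≤ 48 * g ^ 2 ∧
  48 * (c.1 : ℚ) = -(g ^ 4 * (16 * (Mc12 ab.1 ab.2 : ℚ) ^ 2 -
    16 * (Mc12 ab.1 ab.2 : ℚ) * (Nc12 ab.1 ab.2 : ℚ) + (Nc12 ab.1 ab.2 : ℚ) ^ 2)) ∧
  864 * (c.2 : ℚ) = g ^ 6 * ((2 * (Mc12 ab.1 ab.2 : ℚ) - (Nc12 ab.1 ab.2 : ℚ)) *
    (32 * (Mc12 ab.1 ab.2 : ℚ) ^ 2 - 32 * (Mc12 ab.1 ab.2 : ℚ) * (Nc12 ab.1 ab.2 : ℚ) -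
      (Nc12 ab.1 ab.2 : ℚ) ^ 2))

theorem twelve_pt {A B : ℤ} {P : (Sh A B).toAffine.Point} (hP : addOrderOf P = 12) :
    ∃ x3 y3 x y e : ℚ, y3 ≠ 0 ∧ y3 ^ 2 = x3 ^ 3 + A * x3 + B ∧
      x3 = ((3 * x3 ^ 2 + A) / (2 * y3)) ^ 2 - 2 * x3 ∧ y ≠ 0 ∧ y ^ 2 = x ^ 3 + A * x + B ∧
      e ^ 3 + A * e + B = 0 ∧ e = ((3 * x ^ 2 + A) / (2 * y)) ^ 2 - 2 * x := by
  have h4 : addOrderOf (3 • P) = 4 := by
    rw [addOrderOf_nsmul' P (by norm_num), hP]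
    norm_num
  have h3 : addOrderOf (4 • P) = 3 := by
    rw [addOrderOf_nsmul' P (by norm_num), hP]
    norm_num
  have h2 : addOrderOf ((3 • P) + (3 • P)) = 2 := by
    rw [← two_nsmul (3 • P), addOrderOf_nsmul' _ two_ne_zero, h4]
    norm_num
  have n2 : (3 • P) + (3 • P) ≠ 0 := by
    intro h
    rw [h, addOrderOf_zero] at h2
    norm_num at h2
  obtain ⟨x, y, hxy, hPx, hy, hxy', x', y', h', hP2, hx'⟩ := dbl n2
  obtain ⟨e1, h1, hPP⟩ := two_tors h2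
  obtain ⟨x3, y3, hy3, hxy3, h33⟩ := Pool.Agent.W135.RT.ord3 _ h3
  have hx1 : x' = e1 := by
    rw [hPP] at hP2
    exact ((Point.some.inj hP2).1).symm
  have r1 := sh_eq.mp h1.1
  refine ⟨x3, y3, x, y, e1, hy3, hxy3, ?_, hy, hxy', by linarith, by rw [← hx1]; exact hx'⟩
  rw [div_pow, h33]
  field_simp
  ring

/-- a combination of the forms is `48` -/
theorem bez12 {a b : ℤ} (h : IsCoprime a b) : ∃ x y : ℤ, x * Mc12 a b + y * Nc12 a b = 48 := by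
  have h1 : IsCoprime (a ^ 6) (Nc12 a b) := by
    apply IsCoprime.pow_left
    have e : Nc12 a b = b ^ 8 + a * (-6 * a ^ 3 * b ^ 4 + 8 * a ^ 5 * b ^ 2 - 3 * a ^ 7) := by
      unfold Nc12; ring
    rw [e]
    exact IsCoprime.add_mul_left_right (h.pow_right) _
  obtain ⟨p, q, hpq⟩ := h1
  obtain ⟨u, v, huv⟩ : IsCoprime (a ^ 8) (b ^ 2) := h.pow
  have e : Nc12 a b = b ^ 2 * (b ^ 6 - 6 * a ^ 4 * b ^ 2 + 8 * a ^ 6) - 3 * a ^ 8 := by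
    unfold Nc12; ring
  set K : ℤ := b ^ 6 - 6 * a ^ 4 * b ^ 2 + 8 * a ^ 6 with hK
  clear_value K
  have h3 : (u * K + 3 * v) * b ^ 2 - u * Nc12 a b = 3 := by
    rw [e]; linear_combination 3 * huv
  refine ⟨(u * K + 3 * v) * p, 16 * ((u * K + 3 * v) * b ^ 2 * q - u * (p * a ^ 6 + q * Nc12 a b)),
    ?_⟩
  have hM : Mc12 a b = 16 * a ^ 6 * b ^ 2 := rfl
  rw [hM]
  linear_combination 16 * h3 + 16 * ((u * K + 3 * v) * b ^ 2 - u * Nc12 a b) * hpq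

/-- the parameters, rational version -/
theorem alg12 {s t ρ : ℚ} (ht : t ≠ 0) (hρ : ρ ≠ 0)
    (h : 4 * t ^ 2 * ρ ^ 6 = (s - ρ ^ 2) ^ 3 * (s + 3 * ρ ^ 2)) :
    ∃ (a b : ℤ) (g : ℚ), IsCoprime a b ∧ g ≠ 0 ∧ t ^ 2 = g ^ 2 * (Mc12 a b : ℚ) ∧
      4 * s = g ^ 2 * (Nc12 a b : ℚ) := by
  have h0 : 4 * t ^ 2 * ρ ^ 6 ≠ 0 := by positivity
  have hs : s - ρ ^ 2 ≠ 0 := by
    intro h1
    apply h0
    rw [h, h1]; ring
  obtain ⟨m, hm⟩ : ∃ m : ℚ, m = 2 * t * ρ ^ 3 / (s - ρ ^ 2) ^ 2 := ⟨_, rfl⟩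
  have hm1 : m ^ 2 * (s - ρ ^ 2) ^ 4 = 4 * t ^ 2 * ρ ^ 6 := by
    have : m * (s - ρ ^ 2) ^ 2 = 2 * t * ρ ^ 3 := by
      rw [hm]; exact div_mul_cancel₀ _ (pow_ne_zero 2 hs)
    calc m ^ 2 * (s - ρ ^ 2) ^ 4 = (m * (s - ρ ^ 2) ^ 2) ^ 2 := by ring
      _ = (2 * t * ρ ^ 3) ^ 2 := by rw [this]
      _ = 4 * t ^ 2 * ρ ^ 6 := by ring
  have hm2 : m ^ 2 * (s - ρ ^ 2) = s + 3 * ρ ^ 2 := by
    have : (m ^ 2 * (s - ρ ^ 2)) * (s - ρ ^ 2) ^ 3 = (s + 3 * ρ ^ 2) * (s - ρ ^ 2) ^ 3 := by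
      calc (m ^ 2 * (s - ρ ^ 2)) * (s - ρ ^ 2) ^ 3 = m ^ 2 * (s - ρ ^ 2) ^ 4 := by ring
        _ = (s + 3 * ρ ^ 2) * (s - ρ ^ 2) ^ 3 := by rw [hm1, h]; ring
    exact mul_right_cancel₀ (pow_ne_zero 3 hs) this
  set b : ℤ := m.num with hb
  set a : ℤ := (m.den : ℤ) with ha
  have ha0 : (a : ℚ) ≠ 0 := by rw [ha]; exact_mod_cast m.den_nz
  have hab : (b : ℚ) = m * a := by
    rw [hb, ha]
    exact_mod_cast (Rat.mul_den_eq_num m).symm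
  have hco : IsCoprime a b := by
    rw [ha, hb, Int.isCoprime_iff_gcd_eq_one, Int.gcd_comm]
    exact m.reduced
  clear_value a b
  have h5 : (s - ρ ^ 2) * ((b : ℚ) ^ 2 - (a : ℚ) ^ 2) = 4 * (a : ℚ) ^ 2 * ρ ^ 2 := by
    rw [hab]
    linear_combination (a : ℚ) ^ 2 * hm2
  have hd : (b : ℚ) ^ 2 - (a : ℚ) ^ 2 ≠ 0 := by
    intro h1
    rw [h1, mul_zero] at h5
    have : 4 * (a : ℚ) ^ 2 * ρ ^ 2 ≠ 0 := by positivity
    exact this h5.symm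
  have h6 : s * ((b : ℚ) ^ 2 - (a : ℚ) ^ 2) = ρ ^ 2 * ((b : ℚ) ^ 2 + 3 * (a : ℚ) ^ 2) := by
    linear_combination h5
  refine ⟨a, b, 2 * ρ / ((b : ℚ) ^ 2 - (a : ℚ) ^ 2) ^ 2, hco,
    div_ne_zero (mul_ne_zero two_ne_zero hρ) (pow_ne_zero 2 hd), ?_, ?_⟩
  · unfold Mc12
    push_cast
    set d : ℚ := (b : ℚ) ^ 2 - (a : ℚ) ^ 2 with hdd
    clear_value d
    have h7 : t ^ 2 * d ^ 4 * (4 * ρ ^ 6) = 64 * (a : ℚ) ^ 6 * (b : ℚ) ^ 2 * ρ ^ 2 * (4 * ρ ^ 6) := by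
      calc t ^ 2 * d ^ 4 * (4 * ρ ^ 6) = (4 * t ^ 2 * ρ ^ 6) * d ^ 4 := by ring
        _ = m ^ 2 * ((s - ρ ^ 2) * d) ^ 4 := by rw [← hm1]; ring
        _ = m ^ 2 * (4 * (a : ℚ) ^ 2 * ρ ^ 2) ^ 4 := by rw [h5]
        _ = 64 * (a : ℚ) ^ 6 * (m * a) ^ 2 * ρ ^ 2 * (4 * ρ ^ 6) := by ring
        _ = 64 * (a : ℚ) ^ 6 * (b : ℚ) ^ 2 * ρ ^ 2 * (4 * ρ ^ 6) := by rw [← hab]
    have h8 : t ^ 2 * d ^ 4 = 64 * (a : ℚ) ^ 6 * (b : ℚ) ^ 2 * ρ ^ 2 :=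
      mul_right_cancel₀ (by positivity) h7
    rw [div_pow, div_mul_eq_mul_div, eq_div_iff (pow_ne_zero 2 (pow_ne_zero 2 hd))]
    linear_combination h8
  · unfold Nc12
    push_cast
    rw [div_pow, div_mul_eq_mul_div, eq_div_iff (pow_ne_zero 2 (pow_ne_zero 2 hd))]
    linear_combination 4 * ((b : ℚ) ^ 2 - (a : ℚ) ^ 2) ^ 3 * h6

theorem core12 {A B : ℤ} (hD : 4 * A ^ 3 + 27 * B ^ 2 ≠ 0) (hT : HasC 12 (Sh A B)) :
    ∃ ab, Rel12 (A, B) ab := by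
  obtain ⟨P, hP⟩ := hT
  obtain ⟨x3, y3, x, y, e, hy3, hxy3, hx3, hy, hxy, r1, h1⟩ := twelve_pt hP
  have s1 := root_sq hy hxy r1 h1
  have q1 := root_sq hy3 hxy3 r1 hx3
  -- `(x - e) ^ 2 = A + 3 * e ^ 2`
  have hxe : (x - e) ^ 2 = A + 3 * e ^ 2 := by
    rw [sub_self] at s1
    have h3 := (pow_eq_zero_iff (two_ne_zero)).1 s1.symm
    rw [div_eq_zero_iff] at h3
    have h4 := h3.resolve_right (by
      intro h5
      apply hy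
      linarith)
    linear_combination h4
  obtain ⟨ρ, hρ⟩ : ∃ ρ : ℚ, ρ = (x3 ^ 2 - 2 * e * x3 - A - 2 * e ^ 2) / (2 * y3) := ⟨_, rfl⟩
  rw [← hρ] at q1
  obtain ⟨s, hs⟩ : ∃ s : ℚ, s = x - e := ⟨_, rfl⟩
  have hxs : x = e + s := by rw [hs]; ring
  have hs2 : s ^ 2 = A + 3 * e ^ 2 := by rw [hs]; exact hxe
  have hy2 : y ^ 2 = s ^ 2 * (2 * s + 3 * e) := by
    rw [hxy, hxs]
    linear_combination r1 + (-s) * hs2
  have hs0 : s ≠ 0 := by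
    intro h
    apply hy
    have : y ^ 2 = 0 := by rw [hy2, h]; ring
    exact (pow_eq_zero_iff two_ne_zero).1 this
  obtain ⟨t, ht⟩ : ∃ t : ℚ, t = y / s := ⟨_, rfl⟩
  have ht2 : t ^ 2 = 3 * e + 2 * s := by
    have h2 : t * s = y := by rw [ht]; exact div_mul_cancel₀ _ hs0
    have h3 : t ^ 2 * s ^ 2 = (3 * e + 2 * s) * s ^ 2 := by
      rw [← mul_pow, h2, hy2]; ring
    exact mul_right_cancel₀ (pow_ne_zero 2 hs0) h3
  -- the point of order three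
  obtain ⟨z, hz⟩ : ∃ z : ℚ, z = x3 - e := ⟨_, rfl⟩
  have hx3' : x3 = e + z := by rw [hz]; ring
  have hy3' : y3 ^ 2 = z * (z ^ 2 + 3 * e * z + s ^ 2) := by
    rw [hxy3, hx3']
    linear_combination r1 - z * hs2
  have hz0 : z ≠ 0 := by
    intro h
    apply hy3
    have : y3 ^ 2 = 0 := by rw [hy3', h]; ring
    exact (pow_eq_zero_iff two_ne_zero).1 this
  have hzρ : z = ρ ^ 2 := by rw [hz]; exact q1
  have hρ0 : ρ ≠ 0 := by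
    rintro h
    apply hz0
    rw [hzρ, h]; ring
  have f3 : ρ * (2 * y3) = z ^ 2 - s ^ 2 := by
    rw [hρ, div_mul_cancel₀ _ (mul_ne_zero two_ne_zero hy3), hx3', hs2]; ring
  have key : 4 * t ^ 2 * ρ ^ 6 = (s - ρ ^ 2) ^ 3 * (s + 3 * ρ ^ 2) := by
    have e4 : (z ^ 2 - s ^ 2) ^ 2 = 4 * z * (z * (z ^ 2 + 3 * e * z + s ^ 2)) := by
      rw [← f3, mul_pow, ← hzρ, mul_pow, hy3']; ring
    have e5 : ρ ^ 6 = z ^ 3 := by rw [hzρ]; ring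
    rw [e5, ← hzρ, ht2]
    linear_combination -e4
  -- discriminant
  have hdisc : 4 * (A : ℚ) ^ 3 + 27 * (B : ℚ) ^ 2 = -(s ^ 4 * (t ^ 2 * (t ^ 2 - 4 * s))) := by
    have hA' : (A : ℚ) = s ^ 2 - 3 * e ^ 2 := by linarith
    have hB' : (B : ℚ) = -e ^ 3 - A * e := by linarith
    rw [hB', ht2, hA']
    ring
  have hDq : 4 * (A : ℚ) ^ 3 + 27 * (B : ℚ) ^ 2 ≠ 0 := by exact_mod_cast hD
  have ht0 : t ≠ 0 := by
    intro h
    apply hDq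
    rw [hdisc, h]; ring
  have hts : t ^ 2 ≠ 4 * s := by
    intro h
    apply hDq
    rw [hdisc, h]; ring
  obtain ⟨a, b, g, hco, hg, hM, hN⟩ := alg12 ht0 hρ0 key
  -- integrality
  obtain ⟨E, hE⟩ := int_root r1
  obtain ⟨s', hs'⟩ := int_sqrt (M := A + 3 * E ^ 2) (m := s) (by push_cast; rw [hE]; exact hs2.symm)
  obtain ⟨X, Y, hXY⟩ := bez12 hco
  have hg48 : 48 * g ^ 2 = ((X * (3 * E + 2 * s') + Y * (4 * s') : ℤ) : ℚ) := by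
    push_cast
    rw [hE, hs', ← ht2, hM, hN]
    have : ((X * Mc12 a b + Y * Nc12 a b : ℤ) : ℚ) = 48 := by rw [hXY]; norm_num
    push_cast at this
    rw [← this]; ring
  have hg1 : 1 ≤ 48 * g ^ 2 := by
    have h3 : (0 : ℚ) < 48 * g ^ 2 := by positivity
    rw [hg48] at h3 ⊢
    have h4 : (0 : ℤ) < X * (3 * E + 2 * s') + Y * (4 * s') := by exact_mod_cast h3
    exact_mod_cast h4
  refine ⟨(a, b), hco, ?_, ?_, ?_, g, hg, hg1, ?_, ?_⟩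
  · change Mc12 a b ≠ 0
    intro h
    rw [h] at hM
    apply ht0
    have : t ^ 2 = 0 := by rw [hM]; simp
    exact (pow_eq_zero_iff two_ne_zero).1 this
  · change Nc12 a b ≠ 0
    intro h
    rw [h] at hN
    apply hs0
    have : 4 * s = 0 := by rw [hN]; simp
    linarith
  · change Mc12 a b ≠ Nc12 a b
    intro h
    apply hts
    rw [hM, hN, h]
  · change 48 * (A : ℚ) = -(g ^ 4 * (16 * (Mc12 a b : ℚ) ^ 2 -
      16 * (Mc12 a b : ℚ) * (Nc12 a b : ℚ) + (Nc12 a b : ℚ) ^ 2))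
    have h4 : 48 * (A : ℚ) = -(16 * (t ^ 2) ^ 2 - 16 * (t ^ 2) * (4 * s) + (4 * s) ^ 2) := by
      have hA' : (A : ℚ) = s ^ 2 - 3 * e ^ 2 := by linarith
      rw [hA', ht2]; ring
    rw [h4, hM, hN]; ring
  · change 864 * (B : ℚ) = g ^ 6 * ((2 * (Mc12 a b : ℚ) - (Nc12 a b : ℚ)) *
      (32 * (Mc12 a b : ℚ) ^ 2 - 32 * (Mc12 a b : ℚ) * (Nc12 a b : ℚ) - (Nc12 a b : ℚ) ^ 2))
    have h4 : 864 * (B : ℚ) = (2 * t ^ 2 - 4 * s) * (32 * (t ^ 2) ^ 2 - 32 * (t ^ 2) * (4 * s) -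
        (4 * s) ^ 2) := by
      have hA' : (A : ℚ) = s ^ 2 - 3 * e ^ 2 := by linarith
      have hB' : (B : ℚ) = -e ^ 3 - A * e := by linarith
      rw [hB', ht2, hA']; ring
    rw [h4, hM, hN]; ring

open Classical in
/-- the parameters -/
noncomputable def FC12 (c : ℤ × ℤ) : ℤ × ℤ := if h : ∃ ab, Rel12 c ab then h.choose else (0, 0)

theorem FC12_rel {c : ℤ × ℤ} (h : ∃ ab, Rel12 c ab) : Rel12 c (FC12 c) := by
  unfold FC12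
  rw [dif_pos h]
  exact h.choose_spec

theorem minim {A B : ℤ} (hmin : ∀ p : ℕ, p.Prime → ¬ ((p : ℤ) ^ 4 ∣ A ∧ (p : ℤ) ^ 6 ∣ B)) (d n : ℤ)
    (hdn : IsCoprime d n) (hA : d ^ 4 ∣ n ^ 4 * A) (hB : d ^ 6 ∣ n ^ 6 * B) : d.natAbs = 1 := by
  by_contra hd
  obtain ⟨p, hp, hpd⟩ := Nat.exists_prime_and_dvd hd
  have hpd' : (p : ℤ) ∣ d := Int.natCast_dvd.mpr hpd
  apply hmin p hp
  have hc : IsCoprime (p : ℤ) n := hdn.of_isCoprime_of_dvd_left hpd'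
  constructor
  · exact (IsCoprime.pow hc : IsCoprime ((p : ℤ) ^ 4) (n ^ 4)).dvd_of_dvd_mul_left
      ((pow_dvd_pow_of_dvd hpd' 4).trans hA)
  · exact (IsCoprime.pow hc : IsCoprime ((p : ℤ) ^ 6) (n ^ 6)).dvd_of_dvd_mul_left
      ((pow_dvd_pow_of_dvd hpd' 6).trans hB)

theorem inj12 {A B A' B' : ℤ} {P R s s' : ℚ} (hs0 : s' ≠ 0)
    (ea : 48 * (A : ℚ) = -(s ^ 4 * P)) (eb : 864 * (B : ℚ) = s ^ 6 * R)
    (ea' : 48 * (A' : ℚ) = -(s' ^ 4 * P)) (eb' : 864 * (B' : ℚ) = s' ^ 6 * R)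
    (hmin : ∀ p : ℕ, p.Prime → ¬ ((p : ℤ) ^ 4 ∣ A ∧ (p : ℤ) ^ 6 ∣ B))
    (hmin' : ∀ p : ℕ, p.Prime → ¬ ((p : ℤ) ^ 4 ∣ A' ∧ (p : ℤ) ^ 6 ∣ B')) : A = A' ∧ B = B' := by
  obtain ⟨σ, hσ⟩ : ∃ σ : ℚ, σ = s / s' := ⟨_, rfl⟩
  have hs : s = σ * s' := by rw [hσ]; field_simp
  have h1 : (A : ℚ) = σ ^ 4 * A' := by
    rw [hs] at ea
    linear_combination (1 / 48) * ea - (1 / 48) * σ ^ 4 * ea'
  have h2 : (B : ℚ) = σ ^ 6 * B' := by
    rw [hs] at eb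
    linear_combination (1 / 864) * eb - (1 / 864) * σ ^ 6 * eb'
  have hσ2 : σ * ((σ.den : ℤ) : ℚ) = (σ.num : ℚ) := by
    exact_mod_cast Rat.mul_den_eq_num σ
  have h3 : A * (σ.den : ℤ) ^ 4 = σ.num ^ 4 * A' := by
    have : (A : ℚ) * ((σ.den : ℤ) : ℚ) ^ 4 = (σ.num : ℚ) ^ 4 * A' := by
      rw [h1, ← hσ2]; ring
    exact_mod_cast this
  have h4 : B * (σ.den : ℤ) ^ 6 = σ.num ^ 6 * B' := by
    have : (B : ℚ) * ((σ.den : ℤ) : ℚ) ^ 6 = (σ.num : ℚ) ^ 6 * B' := by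
      rw [h2, ← hσ2]; ring
    exact_mod_cast this
  have hcop : IsCoprime (σ.den : ℤ) σ.num := by
    rw [Int.isCoprime_iff_gcd_eq_one, Int.gcd_comm]
    exact σ.reduced
  have h5 : ((σ.den : ℤ)).natAbs = 1 :=
    minim hmin' _ _ hcop ⟨A, by rw [← h3]; ring⟩ ⟨B, by rw [← h4]; ring⟩
  have h6 : (σ.num).natAbs = 1 :=
    minim hmin _ _ hcop.symm ⟨A', by rw [← h3]; ring⟩ ⟨B', by rw [← h4]; ring⟩
  have h7 : (σ.den : ℤ) = 1 := by omega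
  rw [h7] at h3 h4
  have h8 : σ.num = 1 ∨ σ.num = -1 := by omega
  rcases h8 with h8 | h8 <;> rw [h8] at h3 h4 <;> constructor <;> linarith

/-- the bound of the values of the forms -/
theorem form_bound {M N K : ℤ} (hp3 : |16 * M ^ 2 - 16 * M * N + N ^ 2| ^ 3 ≤ K)
    (hr2 : |(2 * M - N) * (32 * M ^ 2 - 32 * M * N - N ^ 2)| ^ 2 ≤ K) :
    (|M| + |N|) ^ 6 ≤ 636056 * K := by
  set P : ℤ := 16 * M ^ 2 - 16 * M * N + N ^ 2 with hP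
  set R : ℤ := (2 * M - N) * (32 * M ^ 2 - 32 * M * N - N ^ 2) with hR
  have id1 : 576 * M ^ 4 = (13 * N - 194 * M) * R - (13 * N ^ 2 + 404 * M * N - 812 * M ^ 2) * P := by
    rw [hP, hR]; ring
  have id2 : 9 * N ^ 4 = 2 * P ^ 2 + 3 * P * N ^ 2 - 4 * (2 * M - N) * R := by
    rw [hP, hR]; ring
  obtain ⟨m, hm⟩ : ∃ m : ℤ, m = |M| := ⟨_, rfl⟩
  obtain ⟨n, hn⟩ : ∃ n : ℤ, n = |N| := ⟨_, rfl⟩
  have hm0 : 0 ≤ m := by rw [hm]; exact abs_nonneg _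
  have hn0 : 0 ≤ n := by rw [hn]; exact abs_nonneg _
  have M1 : M ≤ m := by rw [hm]; exact le_abs_self _
  have M2 : -m ≤ M := by rw [hm]; exact neg_abs_le _
  have N1 : N ≤ n := by rw [hn]; exact le_abs_self _
  have N2 : -n ≤ N := by rw [hn]; exact neg_abs_le _
  have MM : M ^ 2 = m ^ 2 := by rw [hm, sq_abs]
  have NN : N ^ 2 = n ^ 2 := by rw [hn, sq_abs]
  have MN1 : M * N ≤ m * n := by
    rw [hm, hn, ← abs_mul]; exact le_abs_self _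
  have MN2 : -(m * n) ≤ M * N := by
    rw [hm, hn, ← abs_mul]; exact neg_abs_le _
  have hmn := mul_nonneg hm0 hn0
  have hm2 := sq_nonneg m
  have hn2 := sq_nonneg n
  have hPabs : |P| ≤ 16 * (m + n) ^ 2 := by
    rw [abs_le, hP, MM, NN]
    constructor <;> nlinarith
  clear_value P R
  obtain ⟨p, hpd⟩ : ∃ p : ℤ, p = |P| := ⟨_, rfl⟩
  obtain ⟨r, hrd⟩ : ∃ r : ℤ, r = |R| := ⟨_, rfl⟩
  have hp0 : 0 ≤ p := by rw [hpd]; exact abs_nonneg _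
  have hr0 : 0 ≤ r := by rw [hrd]; exact abs_nonneg _
  rw [← hpd] at hp3 hPabs
  rw [← hrd] at hr2
  have b1 : 576 * m ^ 4 ≤ 194 * (m + n) * r + 812 * (m + n) ^ 2 * p := by
    have c1 : (13 * N - 194 * M) * R ≤ 194 * (m + n) * r := by
      calc (13 * N - 194 * M) * R ≤ |(13 * N - 194 * M) * R| := le_abs_self _
        _ = |13 * N - 194 * M| * r := by rw [abs_mul, hrd]
        _ ≤ 194 * (m + n) * r := by
          apply mul_le_mul_of_nonneg_right _ hr0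
          rw [abs_le]
          constructor <;> linarith
    have c2 : -((13 * N ^ 2 + 404 * M * N - 812 * M ^ 2) * P) ≤ 812 * (m + n) ^ 2 * p := by
      calc -((13 * N ^ 2 + 404 * M * N - 812 * M ^ 2) * P)
          ≤ |(13 * N ^ 2 + 404 * M * N - 812 * M ^ 2) * P| := neg_le_abs _
        _ = |13 * N ^ 2 + 404 * M * N - 812 * M ^ 2| * p := by rw [abs_mul, hpd]
        _ ≤ 812 * (m + n) ^ 2 * p := by
          apply mul_le_mul_of_nonneg_right _ hp0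
          rw [abs_le, MM, NN]
          constructor <;> nlinarith
    have e4 : m ^ 4 = M ^ 4 := by
      calc m ^ 4 = (m ^ 2) ^ 2 := by ring
        _ = (M ^ 2) ^ 2 := by rw [MM]
        _ = M ^ 4 := by ring
    rw [e4]
    linarith
  have b2 : 9 * n ^ 4 ≤ 35 * (m + n) ^ 2 * p + 8 * (m + n) * r := by
    have c1 : 2 * P ^ 2 ≤ 32 * (m + n) ^ 2 * p := by
      have : P ^ 2 = p * p := by rw [hpd, ← sq, sq_abs]
      rw [this]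
      nlinarith
    have c2 : 3 * P * N ^ 2 ≤ 3 * (m + n) ^ 2 * p := by
      have d1 : P ≤ p := by rw [hpd]; exact le_abs_self _
      rw [NN]
      have d2 : P * n ^ 2 ≤ p * n ^ 2 := mul_le_mul_of_nonneg_right d1 hn2
      have d3 : p * n ^ 2 ≤ p * (m + n) ^ 2 := by
        apply mul_le_mul_of_nonneg_left _ hp0
        nlinarith
      nlinarith
    have c3 : -(4 * (2 * M - N) * R) ≤ 12 * (m + n) * r := by
      calc -(4 * (2 * M - N) * R) ≤ |4 * (2 * M - N) * R| := neg_le_abs _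
        _ = |4 * (2 * M - N)| * r := by rw [abs_mul, hrd]
        _ ≤ 12 * (m + n) * r := by
          apply mul_le_mul_of_nonneg_right _ hr0
          rw [abs_le]
          constructor <;> linarith
    have c3' : -(4 * (2 * M - N) * R) ≤ 8 * (m + n) * r := by
      calc -(4 * (2 * M - N) * R) ≤ |4 * (2 * M - N) * R| := neg_le_abs _
        _ = |4 * (2 * M - N)| * r := by rw [abs_mul, hrd]
        _ ≤ 8 * (m + n) * r := by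
          apply mul_le_mul_of_nonneg_right _ hr0
          rw [abs_le]
          constructor <;> linarith
    have e4 : n ^ 4 = N ^ 4 := by
      calc n ^ 4 = (n ^ 2) ^ 2 := by ring
        _ = (N ^ 2) ^ 2 := by rw [NN]
        _ = N ^ 4 := by ring
    rw [e4]
    linarith
  rw [← hm, ← hn]
  obtain ⟨S, hS⟩ : ∃ S : ℤ, S = m + n := ⟨_, rfl⟩
  have hS0 : 0 ≤ S := by rw [hS]; exact add_nonneg hm0 hn0
  have hS4 : S ^ 4 ≤ 8 * (m ^ 4 + n ^ 4) := by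
    rw [hS]
    have c1 : (m + n) ^ 2 ≤ 2 * (m ^ 2 + n ^ 2) := by nlinarith [sq_nonneg (m - n)]
    have c2 : (m ^ 2 + n ^ 2) ^ 2 ≤ 2 * (m ^ 4 + n ^ 4) := by nlinarith [sq_nonneg (m ^ 2 - n ^ 2)]
    have c3 : ((m + n) ^ 2) ^ 2 ≤ (2 * (m ^ 2 + n ^ 2)) ^ 2 :=
      pow_le_pow_left₀ (sq_nonneg _) c1 2
    calc (m + n) ^ 4 = ((m + n) ^ 2) ^ 2 := by ring
      _ ≤ (2 * (m ^ 2 + n ^ 2)) ^ 2 := c3
      _ = 4 * (m ^ 2 + n ^ 2) ^ 2 := by ring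
      _ ≤ 8 * (m ^ 4 + n ^ 4) := by linarith
  rw [← hS] at b1 b2 ⊢
  have key : S ^ 4 ≤ 10 * S * r + 43 * S ^ 2 * p := by
    have d1 : 0 ≤ S * r := mul_nonneg hS0 hr0
    have d2 : 0 ≤ S ^ 2 * p := mul_nonneg (sq_nonneg _) hp0
    nlinarith
  have hK0 : (0 : ℤ) ≤ K := le_trans (by positivity) hr2
  rcases hS0.eq_or_lt with h0 | hSpos
  · rw [← h0]
    positivity
  · rcases le_total (10 * S * r) (43 * S ^ 2 * p) with hc | hc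
    · have h1 : S ^ 2 * S ^ 2 ≤ S ^ 2 * (86 * p) := by nlinarith
      have h2 : S ^ 2 ≤ 86 * p := le_of_mul_le_mul_left h1 (by positivity)
      have h3 : (S ^ 2) ^ 3 ≤ (86 * p) ^ 3 := pow_le_pow_left₀ (sq_nonneg _) h2 3
      calc S ^ 6 = (S ^ 2) ^ 3 := by ring
        _ ≤ (86 * p) ^ 3 := h3
        _ = 636056 * p ^ 3 := by ring
        _ ≤ 636056 * K := by linarith
    · have h1 : S * S ^ 3 ≤ S * (20 * r) := by nlinarith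
      have h2 : S ^ 3 ≤ 20 * r := le_of_mul_le_mul_left h1 hSpos
      have h3 : (S ^ 3) ^ 2 ≤ (20 * r) ^ 2 := pow_le_pow_left₀ (by positivity) h2 2
      calc S ^ 6 = (S ^ 3) ^ 2 := by ring
        _ ≤ (20 * r) ^ 2 := h3
        _ = 400 * r ^ 2 := by ring
        _ ≤ 400 * K := by linarith
        _ ≤ 636056 * K := by linarith

theorem rel12_bound {A B : ℤ} {ab : ℤ × ℤ} (h : Rel12 (A, B) ab) {H : ℕ} (hH : 4 * |A| ^ 3 ≤ H)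
    (hH' : 27 * B ^ 2 ≤ H) :
    ab.1.natAbs ^ 48 ≤ 8 ^ 6 * 636056 * 27648 * 48 ^ 6 * H ∧
      ab.2.natAbs ^ 48 ≤ 8 ^ 6 * 636056 * 27648 * 48 ^ 6 * H := by
  obtain ⟨a, b⟩ := ab
  obtain ⟨-, -, -, -, g, hg, hg1, hA, hB⟩ := h
  change 48 * (A : ℚ) = -(g ^ 4 * (16 * (Mc12 a b : ℚ) ^ 2 -
    16 * (Mc12 a b : ℚ) * (Nc12 a b : ℚ) + (Nc12 a b : ℚ) ^ 2)) at hA
  change 864 * (B : ℚ) = g ^ 6 * ((2 * (Mc12 a b : ℚ) - (Nc12 a b : ℚ)) *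
    (32 * (Mc12 a b : ℚ) ^ 2 - 32 * (Mc12 a b : ℚ) * (Nc12 a b : ℚ) -
      (Nc12 a b : ℚ) ^ 2)) at hB
  have hfb := form_bound (M := Mc12 a b) (N := Nc12 a b) (K := 27648 * 48 ^ 6 * H)
  obtain ⟨P, hP⟩ : ∃ P : ℤ, P = 16 * Mc12 a b ^ 2 - 16 * Mc12 a b * Nc12 a b + Nc12 a b ^ 2 :=
    ⟨_, rfl⟩
  obtain ⟨R, hR⟩ : ∃ R : ℤ, R = (2 * Mc12 a b - Nc12 a b) *
      (32 * Mc12 a b ^ 2 - 32 * Mc12 a b * Nc12 a b - Nc12 a b ^ 2) := ⟨_, rfl⟩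
  rw [← hP, ← hR] at hfb
  have hPq : 48 * (A : ℚ) = -(g ^ 4 * (P : ℚ)) := by rw [hA, hP]; push_cast; ring
  have hRq : 864 * (B : ℚ) = g ^ 6 * (R : ℚ) := by rw [hB, hR]; push_cast; ring
  have hp : |P| ≤ 48 ^ 3 * |A| := by
    have h1 : 48 * |(A : ℚ)| = g ^ 4 * |(P : ℚ)| := by
      have := congrArg abs hPq
      rw [abs_mul, abs_neg, abs_mul, abs_of_pos (by positivity : (0 : ℚ) < g ^ 4)] at this
      simpa using this
    have h2 : (1 : ℚ) ≤ 48 ^ 2 * g ^ 4 := by nlinarith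
    have h3 : |(P : ℚ)| ≤ 48 ^ 3 * |(A : ℚ)| := by
      calc |(P : ℚ)| = 1 * |(P : ℚ)| := (one_mul _).symm
        _ ≤ (48 ^ 2 * g ^ 4) * |(P : ℚ)| := mul_le_mul_of_nonneg_right h2 (abs_nonneg _)
        _ = 48 ^ 3 * |(A : ℚ)| := by rw [mul_assoc, ← h1]; ring
    exact_mod_cast h3
  have hr : |R| ≤ 864 * 48 ^ 3 * |B| := by
    have h1 : 864 * |(B : ℚ)| = g ^ 6 * |(R : ℚ)| := by
      have := congrArg abs hRq
      rw [abs_mul, abs_mul, abs_of_pos (by positivity : (0 : ℚ) < g ^ 6)] at this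
      simpa using this
    have h2 : (1 : ℚ) ≤ 48 ^ 3 * g ^ 6 := by
      have : (1 : ℚ) ^ 3 ≤ (48 * g ^ 2) ^ 3 := pow_le_pow_left₀ (by norm_num) hg1 3
      calc (1 : ℚ) = 1 ^ 3 := by norm_num
        _ ≤ (48 * g ^ 2) ^ 3 := this
        _ = 48 ^ 3 * g ^ 6 := by ring
    have h3 : |(R : ℚ)| ≤ 864 * 48 ^ 3 * |(B : ℚ)| := by
      calc |(R : ℚ)| = 1 * |(R : ℚ)| := (one_mul _).symm
        _ ≤ (48 ^ 3 * g ^ 6) * |(R : ℚ)| := mul_le_mul_of_nonneg_right h2 (abs_nonneg _)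
        _ = 864 * 48 ^ 3 * |(B : ℚ)| := by rw [mul_assoc, ← h1]; ring
    exact_mod_cast h3
  have h1 := hfb (by
      have h1 : |P| ^ 3 ≤ (48 ^ 3 * |A|) ^ 3 := pow_le_pow_left₀ (abs_nonneg _) hp 3
      have h2 : (48 ^ 3 * |A|) ^ 3 = 27648 * 48 ^ 6 * (4 * |A| ^ 3) := by ring
      rw [h2] at h1
      linarith) (by
      have h1 : |R| ^ 2 ≤ (864 * 48 ^ 3 * |B|) ^ 2 := pow_le_pow_left₀ (abs_nonneg _) hr 2
      have h2 : (864 * 48 ^ 3 * |B|) ^ 2 = 27648 * 48 ^ 6 * (27 * B ^ 2) := by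
        rw [mul_pow, sq_abs]; ring
      rw [h2] at h1
      linarith)
  obtain ⟨S, hS⟩ : ∃ S : ℤ, S = |Mc12 a b| + |Nc12 a b| := ⟨_, rfl⟩
  rw [← hS] at h1
  have key : ∀ z : ℤ, z ^ 8 ≤ 8 * S →
      z.natAbs ^ 48 ≤ 8 ^ 6 * 636056 * 27648 * 48 ^ 6 * H := by
    intro z hz
    have h3 : (z ^ 8) ^ 6 ≤ (8 * S) ^ 6 :=
      pow_le_pow_left₀ (by positivity) hz 6
    have h4 : ((z.natAbs ^ 48 : ℕ) : ℤ) ≤ ((8 ^ 6 * 636056 * 27648 * 48 ^ 6 * H : ℕ) : ℤ) := by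
      have e2 : ((z.natAbs ^ 48 : ℕ) : ℤ) = (z ^ 8) ^ 6 := by
        push_cast
        rw [← pow_mul]
        exact Even.pow_abs (by decide) z
      rw [e2]
      push_cast
      rw [mul_pow] at h3
      linarith
    exact_mod_cast h4
  -- the size of the forms
  obtain ⟨u, hu⟩ : ∃ u : ℤ, u = a ^ 2 := ⟨_, rfl⟩
  obtain ⟨v, hv⟩ : ∃ v : ℤ, v = b ^ 2 := ⟨_, rfl⟩
  have hu0 : 0 ≤ u := by rw [hu]; exact sq_nonneg _
  have hv0 : 0 ≤ v := by rw [hv]; exact sq_nonneg _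
  have hM : |Mc12 a b| = 16 * u ^ 3 * v := by
    have : Mc12 a b = 16 * u ^ 3 * v := by unfold Mc12; rw [hu, hv]; ring
    rw [this]
    exact abs_of_nonneg (by positivity)
  have hN : |Nc12 a b| = |v - u| ^ 3 * (v + 3 * u) := by
    have : Nc12 a b = (v - u) ^ 3 * (v + 3 * u) := by unfold Nc12; rw [hu, hv]
    rw [this, abs_mul, abs_pow, abs_of_nonneg (by positivity : 0 ≤ v + 3 * u)]
  have ha8 : a ^ 8 = u ^ 4 := by rw [hu]; ring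
  have hb8 : b ^ 8 = v ^ 4 := by rw [hv]; ring
  have hsz : u ^ 4 ≤ 8 * S ∧ v ^ 4 ≤ 8 * S := by
    rw [hS, hM, hN]
    have hM0 : 0 ≤ 16 * u ^ 3 * v := by positivity
    have hN0 : 0 ≤ |v - u| ^ 3 * (v + 3 * u) := by positivity
    rcases le_total (2 * v) u with h2 | h2
    · -- `v` is small
      have h3 : u ≤ 2 * |v - u| := by
        rw [abs_sub_comm, abs_of_nonneg (by linarith)]
        linarith
      have h4 : u ^ 3 ≤ (2 * |v - u|) ^ 3 := pow_le_pow_left₀ hu0 h3 3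
      have h5 : u ^ 3 * u ≤ (2 * |v - u|) ^ 3 * (v + 3 * u) :=
        mul_le_mul h4 (by linarith) hu0 (by positivity)
      have h6 : u ^ 4 ≤ 8 * (|v - u| ^ 3 * (v + 3 * u)) := by
        calc u ^ 4 = u ^ 3 * u := by ring
          _ ≤ (2 * |v - u|) ^ 3 * (v + 3 * u) := h5
          _ = 8 * (|v - u| ^ 3 * (v + 3 * u)) := by ring
      have h7 : v ^ 4 ≤ u ^ 4 := pow_le_pow_left₀ hv0 (by linarith) 4
      exact ⟨by linarith, by linarith⟩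
    · rcases le_total (2 * u) v with h3 | h3
      · -- `u` is small
        have h4 : v ≤ 2 * |v - u| := by
          rw [abs_of_nonneg (by linarith)]
          linarith
        have h5 : v ^ 3 ≤ (2 * |v - u|) ^ 3 := pow_le_pow_left₀ hv0 h4 3
        have h6 : v ^ 3 * v ≤ (2 * |v - u|) ^ 3 * (v + 3 * u) :=
          mul_le_mul h5 (by linarith) hv0 (by positivity)
        have h7 : v ^ 4 ≤ 8 * (|v - u| ^ 3 * (v + 3 * u)) := by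
          calc v ^ 4 = v ^ 3 * v := by ring
            _ ≤ (2 * |v - u|) ^ 3 * (v + 3 * u) := h6
            _ = 8 * (|v - u| ^ 3 * (v + 3 * u)) := by ring
        have h8 : u ^ 4 ≤ v ^ 4 := pow_le_pow_left₀ hu0 (by linarith) 4
        exact ⟨by linarith, by linarith⟩
      · have h4 : u ^ 3 * u ≤ u ^ 3 * (2 * v) := mul_le_mul_of_nonneg_left h2 (by positivity)
        have h5 : v ^ 3 ≤ (2 * u) ^ 3 := pow_le_pow_left₀ hv0 h3 3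
        have h6 : v ^ 3 * v ≤ (2 * u) ^ 3 * v := mul_le_mul_of_nonneg_right h5 hv0
        constructor
        · nlinarith
        · nlinarith
  refine ⟨key a ?_, key b ?_⟩
  · rw [ha8]; exact hsz.1
  · rw [hb8]; exact hsz.2

theorem rel_finrank_gen (hI : S_ISO2) {A B M N : ℤ} {g : ℚ} (hgq : g ≠ 0) (hM : M ≠ 0)
    (hN : N ≠ 0) (hMN : M ≠ N)
    (hA : 48 * (A : ℚ) = -(g ^ 4 * (16 * (M : ℚ) ^ 2 - 16 * (M : ℚ) * (N : ℚ) + (N : ℚ) ^ 2)))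
    (hB : 864 * (B : ℚ) = g ^ 6 * ((2 * (M : ℚ) - (N : ℚ)) *
      (32 * (M : ℚ) ^ 2 - 32 * (M : ℚ) * (N : ℚ) - (N : ℚ) ^ 2))) :
    Module.finrank ℤ (Sh A B).toAffine.Point ≤
      Module.finrank ℤ (EAB (-M) (-N)).toAffine.Point := by
  have hMq : (M : ℚ) ≠ 0 := by exact_mod_cast hM
  have hNq : (N : ℚ) ≠ 0 := by exact_mod_cast hN
  have hMNq : (M : ℚ) ≠ N := by exact_mod_cast hMN
  obtain ⟨e, heq⟩ : ∃ e : ℚ, e = g ^ 2 * (2 * M - N) / 6 := ⟨_, rfl⟩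
  have hAq : (A : ℚ) = -(g ^ 4 * (16 * (M : ℚ) ^ 2 - 16 * M * N + (N : ℚ) ^ 2)) / 48 := by
    linarith
  have hBq : (B : ℚ) = g ^ 6 * ((2 * M - N) * (32 * (M : ℚ) ^ 2 - 32 * M * N - (N : ℚ) ^ 2)) /
      864 := by
    linarith
  obtain ⟨α, hα⟩ : ∃ α : ℚ, α = g ^ 2 * (2 * M - N) / 2 := ⟨_, rfl⟩
  obtain ⟨β, hβ⟩ : ∃ β : ℚ, β = g ^ 4 * (N : ℚ) ^ 2 / 16 := ⟨_, rfl⟩
  have hαβ : α ^ 2 - 4 * β = (g ^ 2 * M) * (g ^ 2 * (M - N)) := by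
    rw [hα, hβ]; ring
  have hβ0 : β ≠ 0 := by
    rw [hβ]
    exact div_ne_zero (mul_ne_zero (pow_ne_zero 4 hgq) (pow_ne_zero 2 hNq)) (by norm_num)
  have hd0 : α ^ 2 - 4 * β ≠ 0 := by
    rw [hαβ]
    exact mul_ne_zero (mul_ne_zero (pow_ne_zero 2 hgq) hMq)
      (mul_ne_zero (pow_ne_zero 2 hgq) (sub_ne_zero.2 hMNq))
  -- first isomorphism
  obtain ⟨φ⟩ := Pool.Agent.W261.RT.iso 0 A B e 1 one_ne_zero
  have hW1 : (⟨0, ((0 : ℚ) + 3 * e) / (1 : ℚ) ^ 2, 0,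
      ((A : ℚ) + 2 * e * 0 + 3 * e ^ 2) / (1 : ℚ) ^ 4,
      ((B : ℚ) + e * A + e ^ 2 * 0 + e ^ 3) / (1 : ℚ) ^ 6⟩ : WeierstrassCurve ℚ)
      = W2 α β := by
    unfold W2
    simp only [WeierstrassCurve.mk.injEq, true_and]
    refine ⟨?_, ?_, ?_⟩
    · rw [heq, hα]; ring
    · rw [heq, hAq, hβ]; ring
    · rw [heq, hAq, hBq]; ring
  rw [hW1] at φ
  have f1 : Module.finrank ℤ (Sh A B).toAffine.Point = Module.finrank ℤ (W2 α β).toAffine.Point :=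
    LinearEquiv.finrank_eq φ.toIntLinearEquiv
  -- second isomorphism
  obtain ⟨ψ⟩ := Pool.Agent.W261.RT.iso (-2 * α) (α ^ 2 - 4 * β) 0 (g ^ 2 * M) g hgq
  have hW2 : (⟨0, ((-2 * α) + 3 * (g ^ 2 * M)) / g ^ 2, 0,
      ((α ^ 2 - 4 * β) + 2 * (g ^ 2 * M) * (-2 * α) + 3 * (g ^ 2 * M) ^ 2) /
        g ^ 4,
      (0 + (g ^ 2 * M) * (α ^ 2 - 4 * β) + (g ^ 2 * M) ^ 2 * (-2 * α) +
        (g ^ 2 * M) ^ 3) / g ^ 6⟩ : WeierstrassCurve ℚ) = EAB (-M) (-N) := by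
    unfold EAB
    simp only [WeierstrassCurve.mk.injEq, true_and]
    refine ⟨?_, ?_, ?_⟩
    · rw [hα]; push_cast; field_simp; ring
    · rw [hα, hβ]; push_cast; field_simp; ring
    · rw [hα, hβ]; field_simp; ring
  rw [hW2] at ψ
  have f2 : Module.finrank ℤ (W2 (-2 * α) (α ^ 2 - 4 * β)).toAffine.Point =
      Module.finrank ℤ (EAB (-M) (-N)).toAffine.Point :=
    LinearEquiv.finrank_eq ψ.toIntLinearEquiv
  have hfg : AddGroup.FG (W2 (-2 * α) (α ^ 2 - 4 * β)).toAffine.Point := by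
    have h := w2_fg (t := g ^ 2 * M) (s := g ^ 2 * (M - N))
      (mul_ne_zero (pow_ne_zero 2 hgq) hMq)
      (mul_ne_zero (pow_ne_zero 2 hgq) (sub_ne_zero.2 hMNq))
      (by
        intro h
        apply hNq
        have := mul_left_cancel₀ (pow_ne_zero 2 hgq) h
        linarith)
    have hW3 : (⟨0, -(g ^ 2 * M + g ^ 2 * (M - N)), 0,
        (g ^ 2 * M) * (g ^ 2 * (M - N)), 0⟩ : WeierstrassCurve ℚ) =
        W2 (-2 * α) (α ^ 2 - 4 * β) := by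
      unfold W2
      simp only [WeierstrassCurve.mk.injEq, true_and, and_true]
      refine ⟨?_, ?_⟩
      · rw [hα]; ring
      · rw [hαβ]
    rw [hW3] at h
    exact h
  rw [f1, ← f2]
  exact hI α β hβ0 hd0 hfg

/-- **JOB P12** -/
theorem t_P12 (hI : S_ISO2) : S_P12 := by
  refine ⟨8 ^ 6 * 636056 * 27648 * 48 ^ 6, FC12, fun H => ⟨?_, ?_⟩⟩
  · intro c hc c' hc' hcc
    rw [Finset.mem_coe] at hc hc'
    simp only [CvC, Finset.mem_filter] at hc hc'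
    obtain ⟨-, hD, -, -, hmin, hT⟩ := hc
    obtain ⟨-, hD', -, -, hmin', hT'⟩ := hc'
    have r := FC12_rel (core12 hD hT)
    have r' := FC12_rel (core12 hD' hT')
    change Rel12 c (FC12 c) at r
    change Rel12 c' (FC12 c') at r'
    rw [← hcc] at r'
    obtain ⟨-, -, -, -, g, hg, -, ea, eb⟩ := r
    obtain ⟨-, -, -, -, g', hg', -, ea', eb'⟩ := r'
    obtain ⟨h1, h2⟩ := inj12 hg' ea eb ea' eb' hmin hmin'
    exact Prod.ext h1 h2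
  · intro c hc
    simp only [CvC, Finset.mem_filter] at hc
    obtain ⟨-, hD, hH, hH', hmin, hT⟩ := hc
    have r := FC12_rel (core12 hD hT)
    change Rel12 c (FC12 c) at r
    obtain ⟨hb1, hb2⟩ := rel12_bound (A := c.1) (B := c.2) r hH hH'
    obtain ⟨hco, hM, hN, hMN, g, hg, hg1, ea, eb⟩ := r
    exact ⟨hco, hM, hN, hMN, hb1, hb2, rel_finrank_gen hI hg hM hN hMN ea eb⟩

end Pool.Agent.V7H46.CY
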