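import Pool.Agent.V7H45.CY.Spec
import Pool.Agent.V7H54.C8.Par8
import Pool.Agent.H437R2.Man.MWWeak

/-!
# Parametrisation of the curves with a point of order 8
-/

set_option autoImplicit false

namespace Pool.Agent.V7H46.CY

open Finset Pool.Agent.W262.RK Pool.Agent.W307.RT WeierstrassCurve.Affine
open Pool.Agent.V7H45.CY
open Pool.Agent.W605.RT (sh_eq sh_negY two_tors int_root int_sqrt root_sq)
open Pool.Agent.V7H54.C8 (dbl)

theorem eight_pt {A B : ℤ} {P : (Sh A B).toAffine.Point} (hP : addOrderOf P = 8) :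
    ∃ x8 y8 x y e : ℚ, y8 ≠ 0 ∧ y8 ^ 2 = x8 ^ 3 + A * x8 + B ∧
      x = ((3 * x8 ^ 2 + A) / (2 * y8)) ^ 2 - 2 * x8 ∧ y ≠ 0 ∧ y ^ 2 = x ^ 3 + A * x + B ∧
      e ^ 3 + A * e + B = 0 ∧ e = ((3 * x ^ 2 + A) / (2 * y)) ^ 2 - 2 * x := by
  have h4 : addOrderOf (P + P) = 4 := by
    rw [← two_nsmul, addOrderOf_nsmul' P two_ne_zero, hP]
    norm_num
  have h2 : addOrderOf ((P + P) + (P + P)) = 2 := by
    rw [← two_nsmul (P + P), addOrderOf_nsmul' _ two_ne_zero, h4]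
    norm_num
  have n4 : P + P ≠ 0 := by
    intro h
    rw [h, addOrderOf_zero] at h4
    norm_num at h4
  have n2 : (P + P) + (P + P) ≠ 0 := by
    intro h
    rw [h, addOrderOf_zero] at h2
    norm_num at h2
  obtain ⟨x8, y8, hxy8, hP8, hy8, he8, x4, y4, h4', hP4, hx4⟩ := dbl n4
  obtain ⟨x, y, hxy, hPx, hy, hxy', x', y', h', hP2, hx'⟩ := dbl n2
  obtain ⟨e1, h1, hPP⟩ := two_tors h2
  have hx : x = x4 := by
    rw [hP4] at hPx
    exact ((Point.some.inj hPx).1).symm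
  have hx1 : x' = e1 := by
    rw [hPP] at hP2
    exact ((Point.some.inj hP2).1).symm
  have r1 := sh_eq.mp h1.1
  exact ⟨x8, y8, x, y, e1, hy8, he8, by rw [hx]; exact hx4, hy, hxy', by linarith,
    by rw [← hx1]; exact hx'⟩

/-- the relation between a curve and its parameters, in terms of the values of the forms -/
def RelMN (A B M N : ℤ) : Prop := ∃ g e : ℤ, 0 < g ∧ 6 * e = g ^ 2 * (2 * M - N) ∧
  48 * A = -(g ^ 4 * (16 * M ^ 2 - 16 * M * N + N ^ 2)) ∧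
  864 * B = g ^ 6 * ((2 * M - N) * (32 * M ^ 2 - 32 * M * N - N ^ 2))

/-- the relation between a curve and its parameters -/
def RelC (c ab : ℤ × ℤ) : Prop := IsCoprime ab.1 ab.2 ∧ Mc8 ab.1 ab.2 ≠ 0 ∧ Nc8 ab.1 ab.2 ≠ 0 ∧
  Mc8 ab.1 ab.2 ≠ Nc8 ab.1 ab.2 ∧ RelMN c.1 c.2 (Mc8 ab.1 ab.2) (Nc8 ab.1 ab.2)

theorem core_int {A B E σ t η : ℤ} (hD : 4 * A ^ 3 + 27 * B ^ 2 ≠ 0)
    (hA : A + 3 * E ^ 2 = σ ^ 4) (hE : E ^ 3 + A * E + B = 0) (ht : t ^ 2 = 3 * E + 2 * σ ^ 2)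
    (hη : t * (t + 2 * σ) = η ^ 2) : ∃ ab, RelC (A, B) ab := by
  have hdisc : 4 * A ^ 3 + 27 * B ^ 2 = -(σ ^ 8 * (t ^ 2 * (t ^ 2 - 4 * σ ^ 2))) := by
    have hA' : A = σ ^ 4 - 3 * E ^ 2 := by linarith
    have hB' : B = -E ^ 3 - A * E := by linarith
    rw [hB', ht, hA']
    ring
  have ht0 : t ≠ 0 := by
    rintro rfl
    apply hD
    rw [hdisc]; ring
  have hσ0 : σ ≠ 0 := by
    rintro rfl
    apply hD
    rw [hdisc]; ring
  have hts : t ^ 2 ≠ 4 * σ ^ 2 := by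
    intro h
    apply hD
    rw [hdisc, h]; ring
  have hg0 : 0 < Int.gcd t (2 * σ) := Int.gcd_pos_of_ne_zero_left _ ht0
  obtain ⟨u, v, huv, hu, hv⟩ := Int.exists_gcd_one hg0
  set g : ℤ := (Int.gcd t (2 * σ) : ℤ) with hg
  have hgpos : 0 < g := by rw [hg]; exact_mod_cast hg0
  clear_value g
  have huv' : IsCoprime u v := Int.isCoprime_iff_gcd_eq_one.mpr huv
  have hu0 : u ≠ 0 := by
    rintro rfl
    exact ht0 (by rw [hu]; simp)
  have hv0 : v ≠ 0 := by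
    rintro rfl
    apply hσ0
    have : 2 * σ = 0 := by rw [hv]; simp
    linarith
  have hw0 : u + v ≠ 0 := by
    intro h
    apply hts
    have h1 : t + 2 * σ = 0 := by rw [hv, hu, ← add_mul, h, zero_mul]
    have h2 : t = -(2 * σ) := by linarith
    rw [h2]; ring
  -- divide by the square of `g`
  obtain ⟨r, hr⟩ : ∃ r : ℤ, u * (u + v) = r ^ 2 := by
    have h1 : (u * (u + v)) * g ^ 2 = η ^ 2 := by
      rw [← hη, hv, hu]
      ring
    have h7 : g ^ 2 ∣ η ^ 2 := ⟨u * (u + v), by rw [← h1]; ring⟩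
    obtain ⟨w, hw⟩ := (Int.pow_dvd_pow_iff two_ne_zero).1 h7
    refine ⟨w, ?_⟩
    have h8 : (u * (u + v)) * g ^ 2 = w ^ 2 * g ^ 2 := by rw [h1, hw]; ring
    exact mul_right_cancel₀ (pow_ne_zero 2 hgpos.ne') h8
  have hco : IsCoprime u (u + v) := by
    have : IsCoprime u (v + u * 1) := IsCoprime.add_mul_left_right huv' 1
    rwa [mul_one, add_comm] at this
  obtain ⟨a, b, ha, hb, hbu⟩ : ∃ a b : ℤ, u ^ 2 = a ^ 4 ∧ v ^ 2 = (b ^ 2 - a ^ 2) ^ 2 ∧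
      IsCoprime (a ^ 2) (b ^ 2) := by
    obtain ⟨a, ha⟩ := Int.sq_of_isCoprime hco hr
    obtain ⟨b, hb⟩ := Int.sq_of_isCoprime hco.symm (by rw [mul_comm]; exact hr)
    have hrr : 0 < u * (u + v) := by
      rw [hr]
      have : r ≠ 0 := by
        rintro rfl
        exact mul_ne_zero hu0 hw0 (by rw [hr]; norm_num)
      positivity
    rcases ha with ha | ha <;> rcases hb with hb | hb
    · refine ⟨a, b, by rw [ha]; ring, ?_, ?_⟩
      · rw [← ha, ← hb]; ring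
      · rw [← ha, ← hb]; exact hco
    · exfalso
      rw [hb, ha] at hrr
      nlinarith [sq_nonneg (a * b)]
    · exfalso
      rw [hb, ha] at hrr
      nlinarith [sq_nonneg (a * b)]
    · refine ⟨a, b, by rw [ha]; ring, ?_, ?_⟩
      · have h1 : v = -(b ^ 2 - a ^ 2) := by linarith
        rw [h1]; ring
      · have h1 : a ^ 2 = -u := by linarith
        have h2 : b ^ 2 = -(u + v) := by linarith
        rw [h1, h2]
        exact hco.neg_neg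
  have hab : IsCoprime a b := (IsCoprime.pow_iff (by norm_num) (by norm_num)).1 hbu
  have hM : t ^ 2 = g ^ 2 * Mc8 a b := by
    unfold Mc8
    rw [← ha, hu]; ring
  have hN : 4 * σ ^ 2 = g ^ 2 * Nc8 a b := by
    unfold Nc8
    rw [← hb]
    have : 4 * σ ^ 2 = (2 * σ) ^ 2 := by ring
    rw [this, hv]; ring
  refine ⟨(a, b), hab, ?_, ?_, ?_, g, E, hgpos, ?_, ?_, ?_⟩
  · change Mc8 a b ≠ 0
    intro h
    apply ht0
    rw [h, mul_zero] at hM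
    exact (pow_eq_zero_iff two_ne_zero).1 hM
  · change Nc8 a b ≠ 0
    intro h
    apply hσ0
    rw [h, mul_zero] at hN
    exact (pow_eq_zero_iff two_ne_zero).1 (by linarith)
  · change Mc8 a b ≠ Nc8 a b
    intro h
    apply hts
    rw [hM, hN, h]
  · change 6 * E = g ^ 2 * (2 * Mc8 a b - Nc8 a b)
    linear_combination (-2) * ht + 2 * hM - hN
  · change 48 * A = -(g ^ 4 * (16 * Mc8 a b ^ 2 - 16 * Mc8 a b * Nc8 a b + Nc8 a b ^ 2))
    generalize Mc8 a b = M at *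
    generalize Nc8 a b = N at *
    have h1 : 48 * A = 48 * σ ^ 4 - 16 * (3 * E) ^ 2 := by linear_combination 48 * hA
    have h2 : 3 * E = t ^ 2 - 2 * σ ^ 2 := by linarith
    have h3 : 48 * A = 48 * σ ^ 4 - 16 * (t ^ 2 - 2 * σ ^ 2) ^ 2 := by rw [h1, h2]
    have h4 : 48 * A = -(16 * (t ^ 2) ^ 2 - 16 * (t ^ 2) * (4 * σ ^ 2) + (4 * σ ^ 2) ^ 2) := by
      rw [h3]; ring
    rw [h4, hM, hN]; ring
  · change 864 * B = g ^ 6 * ((2 * Mc8 a b - Nc8 a b) *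
      (32 * Mc8 a b ^ 2 - 32 * Mc8 a b * Nc8 a b - Nc8 a b ^ 2))
    generalize Mc8 a b = M at *
    generalize Nc8 a b = N at *
    have hA' : A = σ ^ 4 - 3 * E ^ 2 := by linarith
    have h2 : 3 * E = t ^ 2 - 2 * σ ^ 2 := by linarith
    have h1 : 864 * B = 64 * (3 * E) ^ 3 - 288 * σ ^ 4 * (3 * E) := by
      have hB' : B = -E ^ 3 - A * E := by linarith
      rw [hB', hA']; ring
    have h4 : 864 * B = (2 * t ^ 2 - 4 * σ ^ 2) * (32 * (t ^ 2) ^ 2 - 32 * (t ^ 2) * (4 * σ ^ 2) -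
        (4 * σ ^ 2) ^ 2) := by
      rw [h1, h2]; ring
    rw [h4, hM, hN]; ring

theorem core8 {A B : ℤ} (hD : 4 * A ^ 3 + 27 * B ^ 2 ≠ 0) (hT : HasC 8 (Sh A B)) :
    ∃ ab, RelC (A, B) ab := by
  obtain ⟨P, hP⟩ := hT
  obtain ⟨x8, y8, x, y, e, hy8, hxy8, hx, hy, hxy, r1, h1⟩ := eight_pt hP
  have s1 := root_sq hy hxy r1 h1
  have q1 := root_sq hy8 hxy8 r1 hx
  -- `(x - e) ^ 2 = A + 3 * e ^ 2`
  have hxe : (x - e) ^ 2 = A + 3 * e ^ 2 := by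
    rw [sub_self] at s1
    have h3 := (pow_eq_zero_iff (two_ne_zero)).1 s1.symm
    rw [div_eq_zero_iff] at h3
    have h4 := h3.resolve_right (by
      intro h5
      apply hy
      linarith)
    linear_combination h4
  obtain ⟨σ, hσ⟩ : ∃ σ : ℚ, σ = (x8 ^ 2 - 2 * e * x8 - A - 2 * e ^ 2) / (2 * y8) := ⟨_, rfl⟩
  rw [← hσ] at q1
  obtain ⟨s, hs⟩ : ∃ s : ℚ, s = x - e := ⟨_, rfl⟩
  have hxs : x = e + s := by rw [hs]; ring
  have hs2 : s ^ 2 = A + 3 * e ^ 2 := by rw [hs]; exact hxe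
  have hsσ : s = σ ^ 2 := by rw [hs]; exact q1
  have hy2 : y ^ 2 = s ^ 2 * (2 * s + 3 * e) := by
    rw [hxy, hxs]
    linear_combination r1 + (-s) * hs2
  have hs0 : s ≠ 0 := by
    intro h
    apply hy
    have : y ^ 2 = 0 := by rw [hy2, h]; ring
    exact (pow_eq_zero_iff two_ne_zero).1 this
  obtain ⟨t, ht⟩ : ∃ t : ℚ, t = y / s := ⟨_, rfl⟩
  have ht2 : t ^ 2 = 3 * e + 2 * s := by
    have h2 : t * s = y := by rw [ht]; exact div_mul_cancel₀ _ hs0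
    have h3 : t ^ 2 * s ^ 2 = (3 * e + 2 * s) * s ^ 2 := by
      rw [← mul_pow, h2, hy2]; ring
    exact mul_right_cancel₀ (pow_ne_zero 2 hs0) h3
  -- the point of order eight
  obtain ⟨z, hz⟩ : ∃ z : ℚ, z = x8 - e := ⟨_, rfl⟩
  have hx8 : x8 = e + z := by rw [hz]; ring
  have hy8' : y8 ^ 2 = z * (z ^ 2 + 3 * e * z + s ^ 2) := by
    rw [hxy8, hx8]
    linear_combination r1 - z * hs2
  have hz0 : z ≠ 0 := by
    intro h
    apply hy8
    have : y8 ^ 2 = 0 := by rw [hy8', h]; ring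
    exact (pow_eq_zero_iff two_ne_zero).1 this
  have f3 : σ * (2 * y8) = z ^ 2 - s ^ 2 := by
    rw [hσ, div_mul_cancel₀ _ (mul_ne_zero two_ne_zero hy8), hx8, hs2]; ring
  obtain ⟨η, hη⟩ : ∃ η : ℚ, η = y8 / z := ⟨_, rfl⟩
  have hη2 : η ^ 2 * z = z ^ 2 + 3 * e * z + s ^ 2 := by
    have h2 : η * z = y8 := by rw [hη]; exact div_mul_cancel₀ _ hz0
    have h3 : (η ^ 2 * z) * z = (z ^ 2 + 3 * e * z + s ^ 2) * z := by
      have : (η ^ 2 * z) * z = (η * z) ^ 2 := by ring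
      rw [this, h2, hy8']; ring
    exact mul_right_cancel₀ hz0 h3
  have key : (η ^ 2 - t ^ 2) ^ 2 = (2 * t * σ) ^ 2 := by
    have h2 : ((η ^ 2 - t ^ 2) ^ 2) * z ^ 2 = ((2 * t * σ) ^ 2) * z ^ 2 := by
      have e1 : ((η ^ 2 - t ^ 2) ^ 2) * z ^ 2 = (η ^ 2 * z - t ^ 2 * z) ^ 2 := by ring
      have e2 : η ^ 2 * z - t ^ 2 * z = (z - s) ^ 2 := by rw [hη2, ht2]; ring
      have e3 : ((2 * t * σ) ^ 2) * z ^ 2 = 4 * (3 * e + 2 * s) * s * z ^ 2 := by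
        rw [mul_pow, mul_pow, ht2, ← hsσ]; ring
      have e4 : (z ^ 2 - s ^ 2) ^ 2 = 4 * s * (z * (z ^ 2 + 3 * e * z + s ^ 2)) := by
        rw [← f3, mul_pow, ← hsσ, mul_pow, hy8']; ring
      rw [e1, e2, e3]
      linear_combination e4
    exact mul_right_cancel₀ (pow_ne_zero 2 hz0) h2
  -- integrality
  obtain ⟨E, hE⟩ := int_root r1
  obtain ⟨s', hs'⟩ := int_sqrt (M := A + 3 * E ^ 2) (m := s) (by push_cast; rw [hE]; exact hs2.symm)
  obtain ⟨σ', hσ'⟩ := int_sqrt (M := s') (m := σ) (by rw [hs']; exact hsσ)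
  obtain ⟨t', ht'⟩ := int_sqrt (M := 3 * E + 2 * s') (m := t) (by
    push_cast; rw [hE, hs']; exact ht2.symm)
  obtain ⟨σ1, hσ1, hησ⟩ : ∃ σ1 : ℤ, σ1 ^ 2 = σ' ^ 2 ∧ η ^ 2 = t' * (t' + 2 * σ1) := by
    rcases sq_eq_sq_iff_eq_or_eq_neg.1 key with h | h
    · refine ⟨σ', rfl, ?_⟩
      rw [hσ', ht']
      linear_combination h
    · refine ⟨-σ', by ring, ?_⟩
      push_cast
      rw [hσ', ht']
      linear_combination h
  obtain ⟨η', hη'⟩ := int_sqrt (M := t' * (t' + 2 * σ1)) (m := η) (by push_cast; exact hησ.symm)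
  have i1 : s' ^ 2 = A + 3 * E ^ 2 := by
    have : ((s' ^ 2 : ℤ) : ℚ) = ((A + 3 * E ^ 2 : ℤ) : ℚ) := by
      push_cast; rw [hs', hE]; exact hs2
    exact_mod_cast this
  have i2 : s' = σ1 ^ 2 := by
    rw [hσ1]
    have : ((s' : ℤ) : ℚ) = ((σ' ^ 2 : ℤ) : ℚ) := by
      push_cast; rw [hs', hσ']; exact hsσ
    exact_mod_cast this
  have i3 : t' ^ 2 = 3 * E + 2 * s' := by
    have : ((t' ^ 2 : ℤ) : ℚ) = ((3 * E + 2 * s' : ℤ) : ℚ) := by
      push_cast; rw [ht', hE, hs']; exact ht2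
    exact_mod_cast this
  have i4 : t' * (t' + 2 * σ1) = η' ^ 2 := by
    have : ((t' * (t' + 2 * σ1) : ℤ) : ℚ) = ((η' ^ 2 : ℤ) : ℚ) := by
      push_cast; rw [hη']; exact hησ.symm
    exact_mod_cast this
  have i5 : E ^ 3 + A * E + B = 0 := by
    have : ((E ^ 3 + A * E + B : ℤ) : ℚ) = ((0 : ℤ) : ℚ) := by
      push_cast; rw [hE]; exact r1
    exact_mod_cast this
  exact core_int (E := E) (σ := σ1) (t := t') (η := η') hD (by rw [← i1, i2]; ring) i5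
    (by rw [i3, i2]) i4

open Classical in
/-- the parameters -/
noncomputable def FC8 (c : ℤ × ℤ) : ℤ × ℤ := if h : ∃ ab, RelC c ab then h.choose else (0, 0)

theorem FC8_rel {c : ℤ × ℤ} (h : ∃ ab, RelC c ab) : RelC c (FC8 c) := by
  unfold FC8
  rw [dif_pos h]
  exact h.choose_spec

/-- a minimal curve is determined by its parameters -/
theorem scale_one {A B A' B' P R g g' : ℤ} (hg : 0 < g)
    (hA : 48 * A = -(g ^ 4 * P)) (hB : 864 * B = g ^ 6 * R) (hA' : 48 * A' = -(g' ^ 4 * P))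
    (hB' : 864 * B' = g' ^ 6 * R)
    (hmin : ∀ p : ℕ, p.Prime → ¬ ((p : ℤ) ^ 4 ∣ A ∧ (p : ℤ) ^ 6 ∣ B)) : g ∣ g' := by
  have hd0 : 0 < Int.gcd g g' := Int.gcd_pos_of_ne_zero_left _ hg.ne'
  obtain ⟨k, k', hk, hgk, hgk'⟩ := Int.exists_gcd_one hd0
  set d : ℤ := (Int.gcd g g' : ℤ) with hd
  have hdpos : 0 < d := by rw [hd]; exact_mod_cast hd0
  have hco : IsCoprime k k' := Int.isCoprime_iff_gcd_eq_one.mpr hk
  have e1 : A * k' ^ 4 = A' * k ^ 4 := by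
    have : 48 * (A * k' ^ 4) = 48 * (A' * k ^ 4) := by
      calc 48 * (A * k' ^ 4) = (48 * A) * k' ^ 4 := by ring
        _ = (48 * A') * k ^ 4 := by rw [hA, hA', hgk, hgk']; ring
        _ = 48 * (A' * k ^ 4) := by ring
    linarith
  have e2 : B * k' ^ 6 = B' * k ^ 6 := by
    have : 864 * (B * k' ^ 6) = 864 * (B' * k ^ 6) := by
      calc 864 * (B * k' ^ 6) = (864 * B) * k' ^ 6 := by ring
        _ = (864 * B') * k ^ 6 := by rw [hB, hB', hgk, hgk']; ring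
        _ = 864 * (B' * k ^ 6) := by ring
    linarith
  have d1 : k ^ 4 ∣ A := by
    have : k ^ 4 ∣ A * k' ^ 4 := ⟨A', by rw [e1]; ring⟩
    exact (hco.pow (m := 4) (n := 4)).dvd_of_dvd_mul_right this
  have d2 : k ^ 6 ∣ B := by
    have : k ^ 6 ∣ B * k' ^ 6 := ⟨B', by rw [e2]; ring⟩
    exact (hco.pow (m := 6) (n := 6)).dvd_of_dvd_mul_right this
  have hk1 : k.natAbs = 1 := by
    by_contra h
    obtain ⟨p, hp, hpk⟩ := Nat.exists_prime_and_dvd h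
    have hpk' : (p : ℤ) ∣ k := Int.natCast_dvd.mpr hpk
    exact hmin p hp ⟨(pow_dvd_pow_of_dvd hpk' 4).trans d1, (pow_dvd_pow_of_dvd hpk' 6).trans d2⟩
  have hkpos : 0 < k := by
    by_contra h
    push Not at h
    have : g ≤ 0 := by rw [hgk]; exact mul_nonpos_of_nonpos_of_nonneg h hdpos.le
    linarith
  have hk2 : k = 1 := by omega
  rw [hgk, hgk', hk2, one_mul]
  exact dvd_mul_left _ _

theorem relMN_unique {A B A' B' M N : ℤ} (h : RelMN A B M N) (h' : RelMN A' B' M N)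
    (hmin : ∀ p : ℕ, p.Prime → ¬ ((p : ℤ) ^ 4 ∣ A ∧ (p : ℤ) ^ 6 ∣ B))
    (hmin' : ∀ p : ℕ, p.Prime → ¬ ((p : ℤ) ^ 4 ∣ A' ∧ (p : ℤ) ^ 6 ∣ B')) : A = A' ∧ B = B' := by
  obtain ⟨g, e, hg, -, hA, hB⟩ := h
  obtain ⟨g', e', hg', -, hA', hB'⟩ := h'
  have h1 := scale_one hg hA hB hA' hB' hmin
  have h2 := scale_one hg' hA' hB' hA hB hmin'
  have h3 : g = g' := Int.dvd_antisymm hg.le hg'.le h1 h2
  subst h3
  constructor
  · linarith
  · linarith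

/-- the bound of the values of the forms -/
theorem relMN_bound {A B M N : ℤ} (h : RelMN A B M N) (hM : 0 ≤ M) (hN : 0 ≤ N) {H : ℕ}
    (hH : 4 * |A| ^ 3 ≤ H) (hH' : 27 * B ^ 2 ≤ H) :
    (M + N) ^ 6 ≤ 636056 * 27648 * H := by
  obtain ⟨g, e, hg, -, hA, hB⟩ := h
  set P : ℤ := 16 * M ^ 2 - 16 * M * N + N ^ 2 with hP
  set R : ℤ := (2 * M - N) * (32 * M ^ 2 - 32 * M * N - N ^ 2) with hR
  have id1 : 576 * M ^ 4 = (13 * N - 194 * M) * R - (13 * N ^ 2 + 404 * M * N - 812 * M ^ 2) * P := by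
    rw [hP, hR]; ring
  have id2 : 9 * N ^ 4 = 2 * P ^ 2 + 3 * P * N ^ 2 - 4 * (2 * M - N) * R := by
    rw [hP, hR]; ring
  have hp : |P| ≤ 48 * |A| := by
    have h1 : 48 * |A| = g ^ 4 * |P| := by
      have := congrArg abs hA
      rw [abs_mul, abs_neg, abs_mul, abs_of_pos (by positivity : (0 : ℤ) < g ^ 4)] at this
      simpa using this
    have hg1 : 1 ≤ g ^ 4 := one_le_pow₀ (by omega)
    rw [h1]
    nlinarith [abs_nonneg P]
  have hr : |R| ≤ 864 * |B| := by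
    have h1 : 864 * |B| = g ^ 6 * |R| := by
      have := congrArg abs hB
      rw [abs_mul, abs_mul, abs_of_pos (by positivity : (0 : ℤ) < g ^ 6)] at this
      simpa using this
    have hg1 : 1 ≤ g ^ 6 := one_le_pow₀ (by omega)
    rw [h1]
    nlinarith [abs_nonneg R]
  have hPabs : |P| ≤ 16 * (M + N) ^ 2 := by
    rw [abs_le, hP]
    constructor <;> nlinarith [mul_nonneg hM hN, sq_nonneg M, sq_nonneg N]
  clear_value P R
  obtain ⟨p, hpd⟩ : ∃ p : ℤ, p = |P| := ⟨_, rfl⟩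
  obtain ⟨r, hrd⟩ : ∃ r : ℤ, r = |R| := ⟨_, rfl⟩
  have hp0 : 0 ≤ p := by rw [hpd]; exact abs_nonneg _
  have hr0 : 0 ≤ r := by rw [hrd]; exact abs_nonneg _
  rw [← hpd] at hp hPabs
  rw [← hrd] at hr
  have hMN := mul_nonneg hM hN
  have hM2 := sq_nonneg M
  have hN2 := sq_nonneg N
  have b1 : 576 * M ^ 4 ≤ 194 * (M + N) * r + 812 * (M + N) ^ 2 * p := by
    have c1 : (13 * N - 194 * M) * R ≤ 194 * (M + N) * r := by
      calc (13 * N - 194 * M) * R ≤ |(13 * N - 194 * M) * R| := le_abs_self _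
        _ = |13 * N - 194 * M| * r := by rw [abs_mul, hrd]
        _ ≤ 194 * (M + N) * r := by
          apply mul_le_mul_of_nonneg_right _ hr0
          rw [abs_le]
          constructor <;> linarith
    have c2 : -((13 * N ^ 2 + 404 * M * N - 812 * M ^ 2) * P) ≤ 812 * (M + N) ^ 2 * p := by
      calc -((13 * N ^ 2 + 404 * M * N - 812 * M ^ 2) * P)
          ≤ |(13 * N ^ 2 + 404 * M * N - 812 * M ^ 2) * P| := neg_le_abs _
        _ = |13 * N ^ 2 + 404 * M * N - 812 * M ^ 2| * p := by rw [abs_mul, hpd]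
        _ ≤ 812 * (M + N) ^ 2 * p := by
          apply mul_le_mul_of_nonneg_right _ hp0
          rw [abs_le]
          constructor <;> nlinarith
    linarith
  have b2 : 9 * N ^ 4 ≤ 35 * (M + N) ^ 2 * p + 8 * (M + N) * r := by
    have c1 : 2 * P ^ 2 ≤ 32 * (M + N) ^ 2 * p := by
      have : P ^ 2 = p * p := by rw [hpd, ← sq, sq_abs]
      rw [this]
      nlinarith
    have c2 : 3 * P * N ^ 2 ≤ 3 * (M + N) ^ 2 * p := by
      have d1 : P ≤ p := by rw [hpd]; exact le_abs_self _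
      have d2 : P * N ^ 2 ≤ p * N ^ 2 := mul_le_mul_of_nonneg_right d1 hN2
      have d3 : p * N ^ 2 ≤ p * (M + N) ^ 2 := by
        apply mul_le_mul_of_nonneg_left _ hp0
        nlinarith
      nlinarith
    have c3 : -(4 * (2 * M - N) * R) ≤ 8 * (M + N) * r := by
      calc -(4 * (2 * M - N) * R) ≤ |4 * (2 * M - N) * R| := neg_le_abs _
        _ = |4 * (2 * M - N)| * r := by rw [abs_mul, hrd]
        _ ≤ 8 * (M + N) * r := by
          apply mul_le_mul_of_nonneg_right _ hr0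
          rw [abs_le]
          constructor <;> linarith
    linarith
  obtain ⟨S, hS⟩ : ∃ S : ℤ, S = M + N := ⟨_, rfl⟩
  have hS0 : 0 ≤ S := by rw [hS]; exact add_nonneg hM hN
  have hS4 : S ^ 4 ≤ 8 * (M ^ 4 + N ^ 4) := by
    rw [hS]
    have c1 : (M + N) ^ 2 ≤ 2 * (M ^ 2 + N ^ 2) := by nlinarith [sq_nonneg (M - N)]
    have c2 : (M ^ 2 + N ^ 2) ^ 2 ≤ 2 * (M ^ 4 + N ^ 4) := by nlinarith [sq_nonneg (M ^ 2 - N ^ 2)]
    have c3 : ((M + N) ^ 2) ^ 2 ≤ (2 * (M ^ 2 + N ^ 2)) ^ 2 :=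
      pow_le_pow_left₀ (sq_nonneg _) c1 2
    calc (M + N) ^ 4 = ((M + N) ^ 2) ^ 2 := by ring
      _ ≤ (2 * (M ^ 2 + N ^ 2)) ^ 2 := c3
      _ = 4 * (M ^ 2 + N ^ 2) ^ 2 := by ring
      _ ≤ 8 * (M ^ 4 + N ^ 4) := by linarith
  rw [← hS] at b1 b2 ⊢
  have key : S ^ 4 ≤ 10 * S * r + 43 * S ^ 2 * p := by
    have d1 : 0 ≤ S * r := mul_nonneg hS0 hr0
    have d2 : 0 ≤ S ^ 2 * p := mul_nonneg (sq_nonneg _) hp0
    nlinarith
  have hA3 : p ^ 3 ≤ 27648 * H := by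
    have h1 : p ^ 3 ≤ (48 * |A|) ^ 3 := pow_le_pow_left₀ hp0 hp 3
    have h2 : (48 * |A|) ^ 3 = 27648 * (4 * |A| ^ 3) := by ring
    rw [h2] at h1
    linarith
  have hB2 : r ^ 2 ≤ 27648 * H := by
    have h1 : r ^ 2 ≤ (864 * |B|) ^ 2 := pow_le_pow_left₀ hr0 hr 2
    have h2 : (864 * |B|) ^ 2 = 27648 * (27 * B ^ 2) := by
      rw [mul_pow, sq_abs]; ring
    rw [h2] at h1
    linarith
  have hH0 : (0 : ℤ) ≤ H := Int.natCast_nonneg _
  rcases hS0.eq_or_lt with h0 | hSpos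
  · rw [← h0]
    positivity
  · rcases le_total (10 * S * r) (43 * S ^ 2 * p) with hc | hc
    · have h1 : S ^ 2 * S ^ 2 ≤ S ^ 2 * (86 * p) := by nlinarith
      have h2 : S ^ 2 ≤ 86 * p := le_of_mul_le_mul_left h1 (by positivity)
      have h3 : (S ^ 2) ^ 3 ≤ (86 * p) ^ 3 := pow_le_pow_left₀ (sq_nonneg _) h2 3
      calc S ^ 6 = (S ^ 2) ^ 3 := by ring
        _ ≤ (86 * p) ^ 3 := h3
        _ = 636056 * p ^ 3 := by ring
        _ ≤ 636056 * (27648 * H) := by linarith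
        _ = 636056 * 27648 * H := by ring
    · have h1 : S * S ^ 3 ≤ S * (20 * r) := by nlinarith
      have h2 : S ^ 3 ≤ 20 * r := le_of_mul_le_mul_left h1 hSpos
      have h3 : (S ^ 3) ^ 2 ≤ (20 * r) ^ 2 := pow_le_pow_left₀ (by positivity) h2 2
      calc S ^ 6 = (S ^ 3) ^ 2 := by ring
        _ ≤ (20 * r) ^ 2 := h3
        _ = 400 * r ^ 2 := by ring
        _ ≤ 400 * (27648 * H) := by linarith
        _ ≤ 636056 * 27648 * H := by nlinarith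

theorem relC_bound {A B : ℤ} {ab : ℤ × ℤ} (h : RelC (A, B) ab) {H : ℕ} (hH : 4 * |A| ^ 3 ≤ H)
    (hH' : 27 * B ^ 2 ≤ H) :
    ab.1.natAbs ^ 24 ≤ 64 * 636056 * 27648 * H ∧ ab.2.natAbs ^ 24 ≤ 64 * 636056 * 27648 * H := by
  obtain ⟨a, b⟩ := ab
  obtain ⟨-, -, -, -, h⟩ := h
  have h1 := relMN_bound h (by unfold Mc8; positivity) (by unfold Nc8; positivity) hH hH'
  change (a ^ 4 + (b ^ 2 - a ^ 2) ^ 2) ^ 6 ≤ 636056 * 27648 * H at h1
  have key : ∀ z : ℤ, z ^ 4 ≤ 2 * (a ^ 4 + (b ^ 2 - a ^ 2) ^ 2) →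
      z.natAbs ^ 24 ≤ 64 * 636056 * 27648 * H := by
    intro z hz
    have h3 : (z ^ 4) ^ 6 ≤ (2 * (a ^ 4 + (b ^ 2 - a ^ 2) ^ 2)) ^ 6 :=
      pow_le_pow_left₀ (by positivity) hz 6
    have h4 : ((z.natAbs ^ 24 : ℕ) : ℤ) ≤ ((64 * 636056 * 27648 * H : ℕ) : ℤ) := by
      have e2 : ((z.natAbs ^ 24 : ℕ) : ℤ) = (z ^ 4) ^ 6 := by
        push_cast
        rw [← pow_mul]
        exact Even.pow_abs (by decide) z
      rw [e2]
      push_cast
      rw [mul_pow] at h3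
      linarith
    exact_mod_cast h4
  refine ⟨key a ?_, key b ?_⟩
  · have := sq_nonneg (b ^ 2 - a ^ 2)
    have h4 : 0 ≤ a ^ 4 := by positivity
    linarith
  · nlinarith [sq_nonneg (b ^ 2 - 2 * a ^ 2)]

theorem w2_fg {t s : ℚ} (ht : t ≠ 0) (hs : s ≠ 0) (hts : t ≠ s) :
    AddGroup.FG (⟨0, -(t + s), 0, t * s, 0⟩ : WeierstrassCurve ℚ).toAffine.Point := by
  have h := Pool.Agent.H437R2.Man.MW.pt_fg (K := ℚ) (e1 := 0) (e2 := -t) (e3 := -s)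
    (by intro h; apply ht; linarith) (by intro h; apply hs; linarith)
    (by intro h; apply hts; linarith)
  have hW : Pool.Agent.H437R2.Man.MW.crv (0 : ℚ) (-t) (-s) = ⟨0, -(t + s), 0, t * s, 0⟩ := by
    unfold Pool.Agent.H437R2.Man.MW.crv
    simp only [WeierstrassCurve.mk.injEq, true_and]
    refine ⟨by ring, by ring, by ring⟩
  unfold Pool.Agent.H437R2.Man.MW.Pt at h
  rw [hW] at h
  exact h

theorem relC_finrank (hI : S_ISO2) {A B M N : ℤ} (r : RelMN A B M N) (hM : M ≠ 0) (hN : N ≠ 0)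
    (hMN : M ≠ N) :
    Module.finrank ℤ (Sh A B).toAffine.Point ≤
      Module.finrank ℤ (EAB (-M) (-N)).toAffine.Point := by
  obtain ⟨g, e, hg, he, hA, hB⟩ := r
  have hgq : (g : ℚ) ≠ 0 := by exact_mod_cast hg.ne'
  have hMq : (M : ℚ) ≠ 0 := by exact_mod_cast hM
  have hNq : (N : ℚ) ≠ 0 := by exact_mod_cast hN
  have hMNq : (M : ℚ) ≠ N := by exact_mod_cast hMN
  have heq : (e : ℚ) = (g : ℚ) ^ 2 * (2 * M - N) / 6 := by
    have : (6 : ℚ) * e = (g : ℚ) ^ 2 * (2 * M - N) := by exact_mod_cast he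
    linarith
  have hAq : (A : ℚ) = -((g : ℚ) ^ 4 * (16 * (M : ℚ) ^ 2 - 16 * M * N + (N : ℚ) ^ 2)) / 48 := by
    have : (48 : ℚ) * A = -((g : ℚ) ^ 4 * (16 * (M : ℚ) ^ 2 - 16 * M * N + (N : ℚ) ^ 2)) := by
      exact_mod_cast hA
    linarith
  have hBq : (B : ℚ) = (g : ℚ) ^ 6 * ((2 * M - N) * (32 * (M : ℚ) ^ 2 - 32 * M * N - (N : ℚ) ^ 2)) /
      864 := by
    have : (864 : ℚ) * B = (g : ℚ) ^ 6 * ((2 * M - N) *
        (32 * (M : ℚ) ^ 2 - 32 * M * N - (N : ℚ) ^ 2)) := by exact_mod_cast hB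
    linarith
  obtain ⟨α, hα⟩ : ∃ α : ℚ, α = (g : ℚ) ^ 2 * (2 * M - N) / 2 := ⟨_, rfl⟩
  obtain ⟨β, hβ⟩ : ∃ β : ℚ, β = (g : ℚ) ^ 4 * (N : ℚ) ^ 2 / 16 := ⟨_, rfl⟩
  have hαβ : α ^ 2 - 4 * β = ((g : ℚ) ^ 2 * M) * ((g : ℚ) ^ 2 * (M - N)) := by
    rw [hα, hβ]; ring
  have hβ0 : β ≠ 0 := by
    rw [hβ]
    exact div_ne_zero (mul_ne_zero (pow_ne_zero 4 hgq) (pow_ne_zero 2 hNq)) (by norm_num)
  have hd0 : α ^ 2 - 4 * β ≠ 0 := by
    rw [hαβ]
    exact mul_ne_zero (mul_ne_zero (pow_ne_zero 2 hgq) hMq)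
      (mul_ne_zero (pow_ne_zero 2 hgq) (sub_ne_zero.2 hMNq))
  -- first isomorphism
  obtain ⟨φ⟩ := Pool.Agent.W261.RT.iso 0 A B e 1 one_ne_zero
  have hW1 : (⟨0, ((0 : ℚ) + 3 * e) / (1 : ℚ) ^ 2, 0,
      ((A : ℚ) + 2 * e * 0 + 3 * (e : ℚ) ^ 2) / (1 : ℚ) ^ 4,
      ((B : ℚ) + e * A + (e : ℚ) ^ 2 * 0 + (e : ℚ) ^ 3) / (1 : ℚ) ^ 6⟩ : WeierstrassCurve ℚ)
      = W2 α β := by
    unfold W2
    simp only [WeierstrassCurve.mk.injEq, true_and]
    refine ⟨?_, ?_, ?_⟩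
    · rw [heq, hα]; ring
    · rw [heq, hAq, hβ]; ring
    · rw [heq, hAq, hBq]; ring
  rw [hW1] at φ
  have f1 : Module.finrank ℤ (Sh A B).toAffine.Point = Module.finrank ℤ (W2 α β).toAffine.Point :=
    LinearEquiv.finrank_eq φ.toIntLinearEquiv
  -- second isomorphism
  obtain ⟨ψ⟩ := Pool.Agent.W261.RT.iso (-2 * α) (α ^ 2 - 4 * β) 0 ((g : ℚ) ^ 2 * M) g hgq
  have hW2 : (⟨0, ((-2 * α) + 3 * ((g : ℚ) ^ 2 * M)) / (g : ℚ) ^ 2, 0,
      ((α ^ 2 - 4 * β) + 2 * ((g : ℚ) ^ 2 * M) * (-2 * α) + 3 * ((g : ℚ) ^ 2 * M) ^ 2) /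
        (g : ℚ) ^ 4,
      (0 + ((g : ℚ) ^ 2 * M) * (α ^ 2 - 4 * β) + ((g : ℚ) ^ 2 * M) ^ 2 * (-2 * α) +
        ((g : ℚ) ^ 2 * M) ^ 3) / (g : ℚ) ^ 6⟩ : WeierstrassCurve ℚ) = EAB (-M) (-N) := by
    unfold EAB
    simp only [WeierstrassCurve.mk.injEq, true_and]
    refine ⟨?_, ?_, ?_⟩
    · rw [hα]; push_cast; field_simp; ring
    · rw [hα, hβ]; push_cast; field_simp; ring
    · rw [hα, hβ]; field_simp; ring
  rw [hW2] at ψ
  have f2 : Module.finrank ℤ (W2 (-2 * α) (α ^ 2 - 4 * β)).toAffine.Point =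
      Module.finrank ℤ (EAB (-M) (-N)).toAffine.Point :=
    LinearEquiv.finrank_eq ψ.toIntLinearEquiv
  have hfg : AddGroup.FG (W2 (-2 * α) (α ^ 2 - 4 * β)).toAffine.Point := by
    have h := w2_fg (t := (g : ℚ) ^ 2 * M) (s := (g : ℚ) ^ 2 * (M - N))
      (mul_ne_zero (pow_ne_zero 2 hgq) hMq)
      (mul_ne_zero (pow_ne_zero 2 hgq) (sub_ne_zero.2 hMNq))
      (by
        intro h
        apply hNq
        have := mul_left_cancel₀ (pow_ne_zero 2 hgq) h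
        linarith)
    have hW3 : (⟨0, -((g : ℚ) ^ 2 * M + (g : ℚ) ^ 2 * (M - N)), 0,
        ((g : ℚ) ^ 2 * M) * ((g : ℚ) ^ 2 * (M - N)), 0⟩ : WeierstrassCurve ℚ) =
        W2 (-2 * α) (α ^ 2 - 4 * β) := by
      unfold W2
      simp only [WeierstrassCurve.mk.injEq, true_and, and_true]
      refine ⟨?_, ?_⟩
      · rw [hα]; ring
      · rw [hαβ]
    rw [hW3] at h
    exact h
  rw [f1, ← f2]
  exact hI α β hβ0 hd0 hfg

/-- **JOB P8** -/
theorem t_P8 (hI : S_ISO2) : S_P8 := by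
  refine ⟨64 * 636056 * 27648, FC8, fun H => ⟨?_, ?_⟩⟩
  · intro c hc c' hc' hcc
    rw [Finset.mem_coe] at hc hc'
    simp only [CvC, Finset.mem_filter] at hc hc'
    obtain ⟨-, hD, -, -, hmin, hT⟩ := hc
    obtain ⟨-, hD', -, -, hmin', hT'⟩ := hc'
    have r := FC8_rel (core8 hD hT)
    have r' := FC8_rel (core8 hD' hT')
    change RelC c (FC8 c) at r
    change RelC c' (FC8 c') at r'
    rw [← hcc] at r'
    obtain ⟨-, -, -, -, r⟩ := r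
    obtain ⟨-, -, -, -, r'⟩ := r'
    obtain ⟨h1, h2⟩ := relMN_unique r r' hmin hmin'
    exact Prod.ext h1 h2
  · intro c hc
    simp only [CvC, Finset.mem_filter] at hc
    obtain ⟨-, hD, hH, hH', hmin, hT⟩ := hc
    have r := FC8_rel (core8 hD hT)
    change RelC c (FC8 c) at r
    obtain ⟨hb1, hb2⟩ := relC_bound (A := c.1) (B := c.2) r hH hH'
    obtain ⟨hco, hM, hN, hMN, r⟩ := r
    exact ⟨hco, hM, hN, hMN, hb1, hb2, relC_finrank hI r hM hN hMN⟩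

end Pool.Agent.V7H46.CY
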